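import Pool.Agent.H895Z.Luzin

set_option autoImplicit false

/-! A Luzin set yields a Luzin subgroup, closed under rational scalars. -/

namespace Pool.Agent.Results.MP_6ff61e_lc.LuzinSubspace

open Pool.Agent.H895Z.Luzin

theorem result : ∀ (n : ℕ) (κ : Cardinal.{0}),
    (κ = Cardinal.aleph 1 ∨
      (Cardinal.aleph0 < κ ∧ κ.IsRegular ∧ ∃ h : ℕ → ℕ, ∀ (β : ℕ → ℕ) (F : Set (ℕ → ℕ)),
        Cardinal.mk ↥F < κ → (∀ f ∈ F, ∀ l, f l < β l) →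
          ∃ σ : ℕ → Finset ℕ, (∀ l, (σ l).card ≤ h l) ∧
            ∀ f ∈ F, ∀ᶠ l in Filter.atTop, f l ∈ σ l)) →
    (∃ X : Set (Fin n → ℝ), κ ≤ Cardinal.mk ↥X ∧
      ∀ A : Set (Fin n → ℝ), IsMeagre A → Cardinal.mk ↥(X ∩ A) < κ) →
    ∃ G : AddSubgroup (Fin n → ℝ), (∀ (q : ℚ), ∀ v ∈ G, q • v ∈ G) ∧
      κ ≤ Cardinal.mk ↥(G : Set (Fin n → ℝ)) ∧
      ∀ A : Set (Fin n → ℝ), IsMeagre A →
        Cardinal.mk ↥((G : Set (Fin n → ℝ)) ∩ A) < κ := by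
  rintro n κ hκ ⟨X, hX, hXM⟩
  obtain ⟨h1, h2, h, h3⟩ : Cardinal.aleph0 < κ ∧ κ.IsRegular ∧ ∃ h : ℕ → ℕ, Loc h κ := by
    rcases hκ with rfl | hκ
    · exact ⟨Cardinal.aleph0_lt_aleph_one, Cardinal.isRegular_aleph_one, _, loc_aleph1⟩
    · exact hκ
  obtain ⟨G, hG1, hG2⟩ := main h1 h2 h3 n X hX hXM
  exact ⟨G.toAddSubgroup, fun q v hv => G.smul_mem q hv, hG1, hG2⟩

end Pool.Agent.Results.MP_6ff61e_lc.LuzinSubspace
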